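import Pool.Agent.Helper72.ZC.Final

/-!
# Zero-cycles on families of projective varieties

`Family B n r`: a closed subvariety `X` of `B × ℙⁿ`, `B` a projective variety, given by `r` forms
which are homogeneous in the coordinates of `B` and in those of `ℙⁿ`. The definitions are those of
`ZC.Defs` for points with two sets of homogeneous coordinates.
-/

set_option autoImplicit false

open MvPolynomial

namespace ZC

universe u

section families

variable {K : Type u} [Field K] {m s : ℕ}

/-- A closed subvariety of `B × ℙⁿ`: the form `form i` has degree `a i` in the coordinates of `B`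
and degree `d i` in the coordinates of `ℙⁿ`. -/
structure Family (B : ProjVar K m s) (n r : ℕ) where
  /-- the forms -/
  form : Fin r → MvPolynomial (Fin (m + 1) ⊕ Fin (n + 1)) K
  /-- their degrees in the coordinates of `B` -/
  a : Fin r → ℕ
  /-- their degrees in the coordinates of `ℙⁿ` -/
  d : Fin r → ℕ
  hom₁ : ∀ i, (form i).IsWeightedHomogeneous (Sum.elim (fun _ => 1) (fun _ => 0)) (a i)
  hom₂ : ∀ i, (form i).IsWeightedHomogeneous (Sum.elim (fun _ => 0) (fun _ => 1)) (d i)

variable {B : ProjVar K m s} {n r : ℕ}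

/-- `(x, y)` is a pair of vectors of homogeneous coordinates of a point of `X (L)`. -/
def Family.IsPt (X : Family B n r) {L : Type*} [Field L] [Algebra K L]
    (x : Fin (m + 1) → L) (y : Fin (n + 1) → L) : Prop :=
  B.IsPt x ∧ y ≠ 0 ∧ ∀ i, aeval (Sum.elim x y) (X.form i) = 0

/-- The points of `X (K̄)` with homogeneous coordinates. -/
def Family.GPt (X : Family B n r) : Type u :=
  {p : (Fin (m + 1) → AlgebraicClosure K) × (Fin (n + 1) → AlgebraicClosure K) //
    X.IsPt p.1 p.2}

/-- Two geometric points lie over the same closed point of `X`. -/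
instance Family.gSetoid (X : Family B n r) : Setoid X.GPt where
  r p q := ∃ (s : AlgebraicClosure K ≃ₐ[K] AlgebraicClosure K) (b c : AlgebraicClosure K),
    b ≠ 0 ∧ c ≠ 0 ∧ (∀ i, q.1.1 i = b * s (p.1.1 i)) ∧ ∀ i, q.1.2 i = c * s (p.1.2 i)
  iseqv := by
    constructor
    · exact fun x => ⟨AlgEquiv.refl, 1, 1, one_ne_zero, one_ne_zero, fun i => by simp,
        fun i => by simp⟩
    · rintro x y ⟨s, b, c, hb, hc, h, h'⟩
      refine ⟨s.symm, s.symm b⁻¹, s.symm c⁻¹, by simpa using hb, by simpa using hc,
        fun i => ?_, fun i => ?_⟩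
      · rw [h i, ← map_mul, inv_mul_cancel_left₀ hb, AlgEquiv.symm_apply_apply]
      · rw [h' i, ← map_mul, inv_mul_cancel_left₀ hc, AlgEquiv.symm_apply_apply]
    · rintro x y z ⟨s, b, c, hb, hc, h, h'⟩ ⟨t, b', c', hb', hc', k, k'⟩
      refine ⟨s.trans t, b' * t b, c' * t c, mul_ne_zero hb' (by simpa using hb),
        mul_ne_zero hc' (by simpa using hc), fun i => ?_, fun i => ?_⟩
      · rw [k i, h i, map_mul, AlgEquiv.trans_apply, mul_assoc]
      · rw [k' i, h' i, map_mul, AlgEquiv.trans_apply, mul_assoc]

/-- The closed points of `X`. -/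
def Family.ClosedPoint (X : Family B n r) : Type u := Quotient X.gSetoid

/-- The closed point of `X` under a point of `X` over an algebraic extension `L` of `K`. -/
noncomputable def Family.closedPt (X : Family B n r) {L : Type*} [Field L]
    [Algebra K L] [Algebra.IsAlgebraic K L] (x : Fin (m + 1) → L) (y : Fin (n + 1) → L)
    (h : X.IsPt x y) : X.ClosedPoint :=
  Quotient.mk X.gSetoid
    ⟨(fun i => (IsAlgClosed.lift : L →ₐ[K] AlgebraicClosure K) (x i),
      fun i => (IsAlgClosed.lift : L →ₐ[K] AlgebraicClosure K) (y i)), by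
    set φ := (IsAlgClosed.lift : L →ₐ[K] AlgebraicClosure K)
    refine ⟨⟨fun h0 => h.1.1 (funext fun i => ?_), fun i => ?_⟩,
      fun h0 => h.2.1 (funext fun i => ?_), fun i => ?_⟩
    · have h1 := congrFun h0 i
      simpa using h1
    · have h2 : aeval (fun i => φ (x i)) (B.form i) = φ (aeval x (B.form i)) :=
        (comp_aeval_apply x _ (B.form i)).symm
      exact h2.trans (by rw [h.1.2 i, map_zero])
    · have h1 := congrFun h0 i
      simpa using h1
    · have h2 : aeval (fun i => φ (Sum.elim x y i)) (X.form i) =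
          φ (aeval (Sum.elim x y) (X.form i)) :=
        (comp_aeval_apply (Sum.elim x y) _ (X.form i)).symm
      have h3 : (fun i => φ (Sum.elim x y i)) =
          Sum.elim (fun i => φ (x i)) (fun i => φ (y i)) := by
        funext i
        cases i <;> rfl
      rw [h3] at h2
      exact h2.trans (by rw [h.2.2 i, map_zero])⟩

/-- The push-forward to `X` of the point `Spec L`, `L / K` finite: the closed point `P` under
`(x, y) ∈ X (L)` with the multiplicity `[L : K(P)]`; the residue field `K(P)` is generated by the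
quotients of the coordinates `x` and of the coordinates `y`. -/
noncomputable def Family.ptCycle (X : Family B n r) {L : Type*} [Field L] [Algebra K L]
    (x : Fin (m + 1) → L) (y : Fin (n + 1) → L) (h : X.IsPt x y) : X.ClosedPoint →₀ ℤ :=
  open Classical in
  if _ : Algebra.IsAlgebraic K L then
    Finsupp.single (X.closedPt x y h)
      (Module.finrank (coordField K x ⊔ coordField K y : IntermediateField K L) L : ℤ)
  else 0

end families

section reduction

variable {K E : Type u} [Field K] [Field E] [Algebra K E] {m s : ℕ} {B : ProjVar K m s} {n r : ℕ}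

theorem aeval_scale₂ {K L : Type*} [Field K] [Field L] [Algebra K L] {σ τ : Type*} {a d : ℕ}
    {f : MvPolynomial (σ ⊕ τ) K}
    (h₁ : f.IsWeightedHomogeneous (Sum.elim (fun _ => 1) (fun _ => 0)) a)
    (h₂ : f.IsWeightedHomogeneous (Sum.elim (fun _ => 0) (fun _ => 1)) d) (b c : L)
    (x : σ → L) (y : τ → L) :
    aeval (Sum.elim (fun i => b * x i) (fun i => c * y i)) f =
      b ^ a * c ^ d * aeval (Sum.elim x y) f := by
  classical
  rw [aeval_def, aeval_def, eval₂_eq, eval₂_eq, Finset.mul_sum]
  refine Finset.sum_congr rfl fun μ hμ => ?_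
  have ha : ∑ i ∈ μ.support, μ i * Sum.elim (fun _ : σ => 1) (fun _ : τ => 0) i = a := by
    have h := h₁ (mem_support_iff.1 hμ)
    rw [← h, Finsupp.weight_apply, Finsupp.sum]
    rfl
  have hd : ∑ i ∈ μ.support, μ i * Sum.elim (fun _ : σ => 0) (fun _ : τ => 1) i = d := by
    have h := h₂ (mem_support_iff.1 hμ)
    rw [← h, Finsupp.weight_apply, Finsupp.sum]
    rfl
  have key : ∏ i ∈ μ.support, Sum.elim (fun i => b * x i) (fun i => c * y i) i ^ μ i =
      b ^ a * c ^ d * ∏ i ∈ μ.support, Sum.elim x y i ^ μ i := by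
    rw [← ha, ← hd, ← Finset.prod_pow_eq_pow_sum, ← Finset.prod_pow_eq_pow_sum,
      ← Finset.prod_mul_distrib, ← Finset.prod_mul_distrib]
    refine Finset.prod_congr rfl fun i _ => ?_
    cases i <;> simp [mul_pow]
  rw [key]
  ring

theorem Family.red_isPt (X : Family B n r) (w : Place K E) (x : Fin (m + 1) → E)
    (y : Fin (n + 1) → E) (h : X.IsPt x y) :
    X.IsPt (red w x h.1.1) (red w y h.2.1) := by
  refine ⟨ZC.red_isPt B w x h.1, ?_, fun i => ?_⟩
  · intro h0
    set j := (exists_max w y h.2.1).choose with hj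
    have hj1 : y j ≠ 0 := (exists_max w y h.2.1).choose_spec.1
    have hj2 : ∀ i, y i / y j ∈ w.A := (exists_max w y h.2.1).choose_spec.2
    have h1 := congrFun h0 j
    simp only [red, Pi.zero_apply] at h1
    rw [IsLocalRing.residue_eq_zero_iff, IsLocalRing.mem_maximalIdeal, mem_nonunits_iff] at h1
    apply h1
    have : (⟨y j / y j, hj2 j⟩ : w.A) = 1 := Subtype.ext (div_self hj1)
    rw [this]
    exact isUnit_one
  · set j := (exists_max w x h.1.1).choose
    have hj1 : x j ≠ 0 := (exists_max w x h.1.1).choose_spec.1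
    have hj2 : ∀ i, x i / x j ∈ w.A := (exists_max w x h.1.1).choose_spec.2
    set l := (exists_max w y h.2.1).choose
    have hl1 : y l ≠ 0 := (exists_max w y h.2.1).choose_spec.1
    have hl2 : ∀ i, y i / y l ∈ w.A := (exists_max w y h.2.1).choose_spec.2
    let q : Fin (m + 1) ⊕ Fin (n + 1) → w.A :=
      Sum.elim (fun i => ⟨x i / x j, hj2 i⟩) (fun i => ⟨y i / y l, hl2 i⟩)
    have h1 : aeval q (X.form i) = 0 := by
      have hinj : Function.Injective (algebraMap w.A E) := Subtype.val_injective
      apply hinj
      rw [map_zero]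
      have h2 : algebraMap w.A E (aeval q (X.form i)) =
          aeval (Sum.elim (fun i => x i / x j) (fun i => y i / y l)) (X.form i) := by
        have : IsScalarTower K w.A E := IsScalarTower.of_algebraMap_eq fun a => rfl
        rw [← MvPolynomial.aeval_algebraMap_apply]
        congr 2
        funext i
        cases i <;> rfl
      rw [h2]
      have h3 : (fun i => x i / x j) = fun i => (x j)⁻¹ * x i := by
        funext i; rw [div_eq_inv_mul]
      have h4 : (fun i => y i / y l) = fun i => (y l)⁻¹ * y i := by
        funext i; rw [div_eq_inv_mul]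
      rw [h3, h4, aeval_scale₂ (X.hom₁ i) (X.hom₂ i), h.2.2 i, mul_zero]
    have h5 : aeval (Sum.elim (red w x h.1.1) (red w y h.2.1)) (X.form i) =
        algebraMap w.A w.res (aeval q (X.form i)) := by
      rw [← MvPolynomial.aeval_algebraMap_apply]
      congr 2
      funext i
      cases i <;> rfl
    rw [h5, h1, map_zero]

end reduction

section chow

variable {K : Type u} [Field K] {m s : ℕ} {B : ProjVar K m s} {n r : ℕ}

/-- The push-forward to `X` of the divisor of the function `g` on the normal projective curve with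
function field `E`, under the morphism to `X` given by the point `(x, y) ∈ X (E)`. -/
noncomputable def Family.curveCycle (X : Family B n r) {E : Type u} [Field E] [Algebra K E]
    (x : Fin (m + 1) → E) (y : Fin (n + 1) → E) (h : X.IsPt x y) (g : E) : X.ClosedPoint →₀ ℤ :=
  ∑ᶠ w : Place K E, w.ord g •
    X.ptCycle (red w x h.1.1) (red w y h.2.1) (X.red_isPt w x y h)

/-- The zero-cycles rationally equivalent to zero. -/
noncomputable def Family.ratEquiv (X : Family B n r) : AddSubgroup (X.ClosedPoint →₀ ℤ) :=
  AddSubgroup.closure {c | ∃ (E : Type u) (_ : Field E) (_ : Algebra K E),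
    IsCurveField K E ∧ ∃ (x : Fin (m + 1) → E) (y : Fin (n + 1) → E) (h : X.IsPt x y) (g : E),
      g ≠ 0 ∧ c = X.curveCycle x y h g}

/-- The Chow group of zero-cycles of `X`. -/
def Family.CH0 (X : Family B n r) : Type u := (X.ClosedPoint →₀ ℤ) ⧸ X.ratEquiv

noncomputable instance (X : Family B n r) : AddCommGroup X.CH0 :=
  (inferInstance : AddCommGroup ((X.ClosedPoint →₀ ℤ) ⧸ X.ratEquiv))

/-- The class of a zero-cycle. -/
noncomputable def Family.toCH0 (X : Family B n r) : (X.ClosedPoint →₀ ℤ) →+ X.CH0 :=
  QuotientAddGroup.mk' X.ratEquiv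

/-- The class of a rational point of `X`. -/
noncomputable def Family.cls (X : Family B n r) (x : Fin (m + 1) → K) (y : Fin (n + 1) → K)
    (h : X.IsPt x y) : X.CH0 :=
  X.toCH0 (Finsupp.single (X.closedPt x y h) 1)

end chow

theorem isWeightedHomogeneous_map {K L σ : Type*} [Field K] [Field L] {w : σ → ℕ}
    {f : MvPolynomial σ K} {a : ℕ} (h : f.IsWeightedHomogeneous w a) (φ : K →+* L) :
    (MvPolynomial.map φ f).IsWeightedHomogeneous w a := by
  intro μ hμ
  apply h
  rw [coeff_map] at hμ
  exact fun h0 => hμ (by rw [h0, map_zero])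

/-- Base change of a family. -/
noncomputable def Family.map {K L : Type u} [Field K] [Field L] {m s : ℕ} {B : ProjVar K m s}
    {n r : ℕ} (X : Family B n r) (φ : K →+* L) : Family (B.map φ) n r where
  form i := MvPolynomial.map φ (X.form i)
  a := X.a
  d := X.d
  hom₁ i := isWeightedHomogeneous_map (X.hom₁ i) φ
  hom₂ i := isWeightedHomogeneous_map (X.hom₂ i) φ

end ZC
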